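import Pool.Agent.H12.HS.Targets
import Pool.Agent.H12.HS.Basic

namespace Pool.Agent.H12.HZ.ALL

open Pool.Agent.H12.HS

universe u

/-- a finite algebra generated by nilpotent `x,y,z` on the surface is a quotient of `AA`. -/
theorem exists_quotient (hEVN : T_EVN.{u}) {Ω : Type u} [Field Ω] {W : Type u} [CommRing W]
    [Algebra Ω W] (p : Fin 3 → W)
    (hp : Algebra.adjoin Ω (Set.range p) = ⊤) (he : p 2 ^ 2 = p 0 ^ 4 + p 1 ^ 4)
    (hn : ∀ i, IsNilpotent (p i)) :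
    ∃ (I : Ideal (AA Ω)) (e : (AA Ω ⧸ I) ≃ₐ[Ω] W), Cof I ∧ ∀ i, e (qp I i) = p i := by
  obtain ⟨β, h1, h2, h3, h4⟩ :=
    (hEVN Ω W (algebraMap Ω W) (p 0) (p 1) (p 2) (hn 0) (hn 1) he).1
  let βa : AA Ω →ₐ[Ω] W := { β with commutes' := h1 }
  have hβa : ∀ a, βa a = β a := fun _ => rfl
  have hsurj : Function.Surjective βa := by
    rw [← AlgHom.range_eq_top, eq_top_iff, ← hp, Algebra.adjoin_le_iff]
    rintro _ ⟨i, rfl⟩
    fin_cases i
    · exact ⟨ax Ω, h2⟩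
    · exact ⟨ay Ω, h3⟩
    · exact ⟨az Ω, h4⟩
  refine ⟨RingHom.ker βa, Ideal.quotientKerAlgEquivOfSurjective hsurj, ?_, ?_⟩
  · obtain ⟨N, hN⟩ := hn 0
    obtain ⟨M, hM⟩ := hn 1
    refine ⟨N + M, ?_, ?_⟩
    · rw [RingHom.mem_ker, map_pow, hβa, h2, pow_add, hN, zero_mul]
    · rw [RingHom.mem_ker, map_pow, hβa, h3, pow_add, hM, mul_zero]
  · intro i
    fin_cases i
    · exact h2
    · exact h3
    · exact h4

theorem all (hMAIN : T_MAIN.{u}) (hAWAY : T_AWAY.{u}) (hIDEM : T_IDEM.{u}) (hSUM : T_SUM.{u})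
    (hEVN : T_EVN.{u}) : T_ALL.{u} := by
  intro k Ω _ _ _ _ _ κ W _ _ _ p hp he
  obtain ⟨W1, W2, iW1, iW2, aW1, aW2, e, hn, ht⟩ := hIDEM Ω W p
  have hadj : Algebra.adjoin Ω (Set.range fun i => ((e (p i)).1, (e (p i)).2)) = ⊤ := by
    have h1 : (Set.range fun i => ((e (p i)).1, (e (p i)).2)) = e '' Set.range p := by
      rw [← Set.range_comp]
      rfl
    have h2 := (AlgHom.map_adjoin (e : W →ₐ[Ω] W1 × W2) (Set.range p)).symm
    rw [hp, Algebra.map_top, (AlgHom.range_eq_top _).2 e.surjective] at h2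
    rw [h1]
    exact h2
  have hadj1 : Algebra.adjoin Ω (Set.range fun i => (e (p i)).1) = ⊤ := by
    have h1 : (Set.range fun i => (e (p i)).1) =
        (AlgHom.fst Ω W1 W2) '' (Set.range fun i => ((e (p i)).1, (e (p i)).2)) := by
      rw [← Set.range_comp]
      rfl
    have h2 := (AlgHom.map_adjoin (AlgHom.fst Ω W1 W2)
      (Set.range fun i => ((e (p i)).1, (e (p i)).2))).symm
    rw [hadj, Algebra.map_top, (AlgHom.range_eq_top _).2 Prod.fst_surjective] at h2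
    rw [h1]
    exact h2
  have hadj2 : Algebra.adjoin Ω (Set.range fun i => (e (p i)).2) = ⊤ := by
    have h1 : (Set.range fun i => (e (p i)).2) =
        (AlgHom.snd Ω W1 W2) '' (Set.range fun i => ((e (p i)).1, (e (p i)).2)) := by
      rw [← Set.range_comp]
      rfl
    have h2 := (AlgHom.map_adjoin (AlgHom.snd Ω W1 W2)
      (Set.range fun i => ((e (p i)).1, (e (p i)).2))).symm
    rw [hadj, Algebra.map_top, (AlgHom.range_eq_top _).2 Prod.snd_surjective] at h2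
    rw [h1]
    exact h2
  have f12 : Module.Finite Ω (W1 × W2) := Module.Finite.equiv e.toLinearEquiv
  have f1 : Module.Finite Ω W1 :=
    Module.Finite.of_surjective (LinearMap.fst Ω W1 W2) Prod.fst_surjective
  have f2 : Module.Finite Ω W2 :=
    Module.Finite.of_surjective (LinearMap.snd Ω W1 W2) Prod.snd_surjective
  have hE : e (p 2) ^ 2 = e (p 0) ^ 4 + e (p 1) ^ 4 := by
    rw [← map_pow, he, map_add, map_pow, map_pow]
  have hE1 : (e (p 2)).1 ^ 2 = (e (p 0)).1 ^ 4 + (e (p 1)).1 ^ 4 := congrArg Prod.fst hE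
  have hE2 : (e (p 2)).2 ^ 2 = (e (p 0)).2 ^ 4 + (e (p 1)).2 ^ 4 := congrArg Prod.snd hE
  have s2 : SmAt κ W2 (fun i => (e (p i)).2) := hAWAY k Ω κ W2 _ hadj2 hE2 ht
  have s1 : SmAt κ W1 (fun i => (e (p i)).1) := by
    obtain ⟨I, e1, hI, h1⟩ := exists_quotient hEVN (fun i => (e (p i)).1) hadj1 hE1 hn
    exact SmAt.of_iso e1 h1 (hMAIN k Ω κ I hI)
  have s := hSUM k Ω κ W1 W2 _ _ s1 s2 hadj
  refine SmAt.of_iso e.symm (fun i => ?_) s
  exact e.symm_apply_apply (p i)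

end Pool.Agent.H12.HZ.ALL
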